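import Mathlib.Combinatorics.SimpleGraph.Basic
import Mathlib.Data.ZMod.Basic
import Mathlib.Analysis.SpecificLimits.Basic
import Mathlib.Tactic

/-!
# The odd independence number of even-dimensional hypercubes is asymptotically `2^d / 2`
(MP_5d7181_co, Q2)

For `2 ^ m ≤ d`, `d` even, `m ≥ 1`, remove from the even-weight vertices those with vanishing
Hamming syndrome (computed from the first `2 ^ m` coordinates).
-/

namespace Pool.Agent.Results.MP_5d7181_co.LimitHalf

open Finset Filter Topology

/-- The hypercube `Q_d`: vertices are the 0/1 vectors of length `d`, adjacent iff they differ in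
exactly one coordinate. -/
def Q (d : ℕ) : SimpleGraph (Fin d → ZMod 2) where
  Adj x y := ∃! i, x i ≠ y i
  symm := ⟨fun x y ⟨i, hi, h⟩ => ⟨i, fun h' => hi h'.symm, fun j hj => h j (fun h' => hj h'.symm)⟩⟩
  loopless := ⟨fun x ⟨i, hi, _⟩ => hi rfl⟩

/-- `S` is odd independent in `G`: it is independent and every vertex outside `S` has no or an odd
number of neighbours in `S`. -/
def IsOddIndependent {V : Type*} (G : SimpleGraph V) (S : Finset V) : Prop :=
  (∀ u ∈ S, ∀ v ∈ S, ¬ G.Adj u v) ∧
    ∀ v, v ∉ S → (∀ w ∈ S, ¬ G.Adj v w) ∨ Odd {w | w ∈ S ∧ G.Adj v w}.ncard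

/-- The odd independence number: the largest size of an odd independent set. -/
noncomputable def oddIndepNum {V : Type*} (G : SimpleGraph V) : ℕ :=
  sSup {k | ∃ S : Finset V, IsOddIndependent G S ∧ S.card = k}

theorem zmod2_ne {a b : ZMod 2} (h : a ≠ b) : b = a + 1 := by
  revert a b; decide

theorem zmod2_cases (a : ZMod 2) : a = 0 ∨ a = 1 := by
  revert a; decide

theorem zmod2_add_two (a : ZMod 2) : a + 1 + 1 = a := by
  revert a; decide

theorem zmod2_not (a b : ZMod 2) : ¬ b = a ↔ b = a + 1 := by
  revert a b; decide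

theorem adj_iff {d : ℕ} {x y : Fin d → ZMod 2} :
    (Q d).Adj x y ↔ ∃ i, y = x + Pi.single i 1 := by
  constructor
  · rintro ⟨i, hi, h⟩
    refine ⟨i, funext fun j => ?_⟩
    by_cases hj : j = i
    · subst hj
      simpa using zmod2_ne hi
    · have : x j = y j := by
        by_contra h'
        exact hj (h j h')
      simp [Pi.single_eq_of_ne hj, this]
  · rintro ⟨i, rfl⟩
    refine ⟨i, ?_, ?_⟩
    · simp
    · intro j hj
      by_contra hji
      apply hj
      simp [Pi.single_eq_of_ne hji]

section

variable {d m : ℕ}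

/-- Parity of a vertex. -/
def par (x : Fin d → ZMod 2) : ZMod 2 := ∑ i, x i

/-- Labels of the coordinates: the first `2 ^ m` coordinates get the distinct vectors of length
`m`, the others get `0`. -/
noncomputable def lab (E : (Fin m → ZMod 2) ≃ Fin (2 ^ m)) (i : Fin d) : Fin m → ZMod 2 :=
  if h : i.val < 2 ^ m then E.symm ⟨i.val, h⟩ else 0

/-- Syndrome of a vertex. -/
noncomputable def syn (E : (Fin m → ZMod 2) ≃ Fin (2 ^ m)) (x : Fin d → ZMod 2) :
    Fin m → ZMod 2 := ∑ i, x i • lab E i

theorem par_add_single (x : Fin d → ZMod 2) (i : Fin d) :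
    par (x + Pi.single i 1) = par x + 1 := by
  simp [par, Finset.sum_add_distrib]

theorem syn_add_single (E : (Fin m → ZMod 2) ≃ Fin (2 ^ m)) (x : Fin d → ZMod 2) (i : Fin d) :
    syn E (x + Pi.single i 1) = syn E x + lab E i := by
  unfold syn
  simp only [Pi.add_apply, add_smul, Finset.sum_add_distrib]
  congr 1
  rw [Finset.sum_eq_single i]
  · simp
  · intro j _ hj
    simp [Pi.single_eq_of_ne hj]
  · simp

theorem vec_add_eq_zero {v w : Fin m → ZMod 2} : v + w = 0 ↔ w = v := by
  constructor
  · intro h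
    funext i
    have := congrFun h i
    simp only [Pi.add_apply, Pi.zero_apply] at this
    revert this
    generalize v i = a
    generalize w i = b
    revert a b
    decide
  · rintro rfl
    funext i
    simp only [Pi.add_apply, Pi.zero_apply]
    generalize w i = a
    revert a
    decide

/-- The number of coordinates with a given label is odd. -/
theorem odd_card_lab (E : (Fin m → ZMod 2) ≃ Fin (2 ^ m)) (hm : 1 ≤ m) (hd : Even d)
    (hmd : 2 ^ m ≤ d) (w : Fin m → ZMod 2) :
    Odd (univ.filter (fun i : Fin d => lab E i = w)).card := by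
  classical
  have hsplit : univ.filter (fun i : Fin d => lab E i = w) =
      (univ.filter (fun i : Fin d => i.val < 2 ^ m ∧ lab E i = w)) ∪
      (univ.filter (fun i : Fin d => ¬ i.val < 2 ^ m ∧ lab E i = w)) := by
    ext i
    simp only [mem_filter, mem_univ, true_and, mem_union]
    tauto
  have hdisj : Disjoint (univ.filter (fun i : Fin d => i.val < 2 ^ m ∧ lab E i = w))
      (univ.filter (fun i : Fin d => ¬ i.val < 2 ^ m ∧ lab E i = w)) := by
    rw [Finset.disjoint_filter]
    rintro i - h1 h2
    exact h2.1 h1.1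
  have h1 : (univ.filter (fun i : Fin d => i.val < 2 ^ m ∧ lab E i = w)) =
      {⟨(E w).val, lt_of_lt_of_le (E w).isLt hmd⟩} := by
    ext i
    simp only [mem_filter, mem_univ, true_and, mem_singleton]
    constructor
    · rintro ⟨hi, h⟩
      unfold lab at h
      rw [dif_pos hi, Equiv.symm_apply_eq] at h
      apply Fin.ext
      rw [← h]
    · rintro rfl
      refine ⟨(E w).isLt, ?_⟩
      unfold lab
      rw [dif_pos (E w).isLt]
      simp
  rw [hsplit, card_union_of_disjoint hdisj, h1, card_singleton]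
  rw [add_comm]
  apply Even.add_one
  by_cases hw : w = 0
  · have h2 : (univ.filter (fun i : Fin d => ¬ i.val < 2 ^ m ∧ lab E i = w)) =
        (univ.filter (fun i : Fin d => ¬ i.val < 2 ^ m)) := by
      ext i
      simp only [mem_filter, mem_univ, true_and, and_iff_left_iff_imp]
      intro hi
      unfold lab
      rw [dif_neg hi, hw]
    rw [h2]
    have h3 : (univ.filter (fun i : Fin d => i.val < 2 ^ m)).card = 2 ^ m := by
      have : (univ.filter (fun i : Fin d => i.val < 2 ^ m)) =
          (univ : Finset (Fin (2 ^ m))).map (Fin.castLEEmb hmd) := by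
        ext i
        simp only [mem_filter, mem_univ, true_and, Finset.mem_map, Fin.castLEEmb_apply]
        constructor
        · intro hi
          exact ⟨⟨i.val, hi⟩, Fin.ext rfl⟩
        · rintro ⟨j, rfl⟩
          simp
      rw [this, card_map, card_univ, Fintype.card_fin]
    have h4 := Finset.card_filter_add_card_filter_not (s := (univ : Finset (Fin d)))
      (fun i : Fin d => i.val < 2 ^ m)
    rw [h3, card_univ, Fintype.card_fin] at h4
    have h5 : Even (2 ^ m) := (Nat.even_pow.2 ⟨even_two, by omega⟩)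
    rw [← h4] at hd
    exact (Nat.even_add.1 hd).1 h5
  · have h2 : (univ.filter (fun i : Fin d => ¬ i.val < 2 ^ m ∧ lab E i = w)) = ∅ := by
      rw [filter_eq_empty_iff]
      rintro i - ⟨hi, h⟩
      unfold lab at h
      rw [dif_neg hi] at h
      exact hw h.symm
    rw [h2]
    simp

/-- The neighbours of a vertex. -/
def nbEmb (v : Fin d → ZMod 2) : Fin d ↪ (Fin d → ZMod 2) :=
  ⟨fun i => v + Pi.single i 1, fun i j hij => by
    have h2 : (Pi.single i 1 : Fin d → ZMod 2) = Pi.single j 1 := add_left_cancel hij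
    by_contra hne
    have := congrFun h2 i
    rw [Pi.single_eq_same, Pi.single_eq_of_ne hne] at this
    exact absurd this (by decide)⟩

open Classical in
/-- The set `S`. -/
noncomputable def bigSet (E : (Fin m → ZMod 2) ≃ Fin (2 ^ m)) : Finset (Fin d → ZMod 2) :=
  univ.filter (fun x => par x = 0 ∧ syn E x ≠ 0)

theorem mem_bigSet (E : (Fin m → ZMod 2) ≃ Fin (2 ^ m)) (x : Fin d → ZMod 2) :
    x ∈ bigSet E ↔ par x = 0 ∧ syn E x ≠ 0 := by
  simp [bigSet]

theorem bigSet_oddIndependent (E : (Fin m → ZMod 2) ≃ Fin (2 ^ m)) (hm : 1 ≤ m) (hd : Even d)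
    (hmd : 2 ^ m ≤ d) : IsOddIndependent (Q d) (bigSet E) := by
  classical
  constructor
  · rintro u hu v hv hadj
    rw [mem_bigSet] at hu hv
    obtain ⟨i, rfl⟩ := adj_iff.1 hadj
    have := hv.1
    rw [par_add_single, hu.1] at this
    exact absurd this (by decide)
  · intro v hv
    rcases zmod2_cases (par v) with h0 | h1
    · left
      intro w hw hadj
      rw [mem_bigSet] at hw
      obtain ⟨i, rfl⟩ := adj_iff.1 hadj
      have := hw.1
      rw [par_add_single, h0] at this
      exact absurd this (by decide)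
    · right
      have hset : {w | w ∈ bigSet E ∧ (Q d).Adj v w} =
          (((univ.filter (fun i : Fin d => ¬ lab E i = syn E v)).map (nbEmb v) :
            Finset (Fin d → ZMod 2)) : Set (Fin d → ZMod 2)) := by
        ext w
        simp only [Set.mem_ofPred_eq, mem_bigSet, coe_map,
          Set.mem_image, mem_coe, mem_filter, mem_univ, true_and, adj_iff]
        constructor
        · rintro ⟨⟨-, h⟩, i, rfl⟩
          refine ⟨i, ?_, rfl⟩
          rw [syn_add_single] at h
          exact fun h' => h (vec_add_eq_zero.2 h')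
        · rintro ⟨i, h, rfl⟩
          have hnb : nbEmb v i = v + Pi.single i 1 := rfl
          rw [hnb]
          refine ⟨⟨?_, ?_⟩, i, rfl⟩
          · rw [par_add_single, h1]; decide
          · rw [syn_add_single]
            exact fun h' => h (vec_add_eq_zero.1 h')
      rw [hset, Set.ncard_coe_finset, card_map]
      have h4 := Finset.card_filter_add_card_filter_not (s := (univ : Finset (Fin d)))
        (fun i : Fin d => lab E i = syn E v)
      rw [card_univ, Fintype.card_fin] at h4
      have h5 := odd_card_lab E hm hd hmd (syn E v)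
      have h6 : Even ((univ.filter (fun i : Fin d => lab E i = syn E v)).card +
        (univ.filter (fun i : Fin d => ¬ lab E i = syn E v)).card) := by rw [h4]; exact hd
      exact (Nat.even_add'.1 h6).1 h5

theorem card_par (hd : 0 < d) (a : ZMod 2) :
    (univ.filter (fun x : Fin d → ZMod 2 => par x = a)).card = 2 ^ (d - 1) := by
  classical
  have hflip : ∀ a : ZMod 2, (univ.filter (fun x : Fin d → ZMod 2 => par x = a)).card ≤
      (univ.filter (fun x : Fin d → ZMod 2 => par x = a + 1)).card := by
    intro a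
    apply card_le_card_of_injOn (fun x => x + Pi.single ⟨0, hd⟩ 1)
    · intro x hx
      simp only [coe_filter, mem_univ, true_and, Set.mem_ofPred_eq] at hx ⊢
      rw [par_add_single, hx]
    · intro x _ y _ hxy
      exact add_right_cancel hxy
  have h01 : (univ.filter (fun x : Fin d → ZMod 2 => par x = a)).card =
      (univ.filter (fun x : Fin d → ZMod 2 => par x = a + 1)).card := by
    apply le_antisymm (hflip a)
    have := hflip (a + 1)
    rwa [zmod2_add_two a] at this
  have hsum := Finset.card_filter_add_card_filter_not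
    (s := (univ : Finset (Fin d → ZMod 2))) (fun x => par x = a)
  have hnot : (univ.filter (fun x : Fin d → ZMod 2 => ¬ par x = a)) =
      (univ.filter (fun x : Fin d → ZMod 2 => par x = a + 1)) := by
    ext x
    simp only [mem_filter, mem_univ, true_and]
    exact zmod2_not a (par x)
  rw [hnot, ← h01, card_univ] at hsum
  have hc : Fintype.card (Fin d → ZMod 2) = 2 ^ d := by simp [ZMod.card]
  rw [hc] at hsum
  have : 2 ^ d = 2 * 2 ^ (d - 1) := by
    rw [← pow_succ']
    congr 1
    omega
  omega

theorem card_bigSet (E : (Fin m → ZMod 2) ≃ Fin (2 ^ m)) (hmd : 2 ^ m ≤ d) :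
    2 ^ (d - 1) * (2 ^ m - 1) ≤ (bigSet (d := d) E).card * 2 ^ m := by
  classical
  have hd : 0 < d := lt_of_lt_of_le (by positivity) hmd
  -- the complement within the even vectors
  set T := univ.filter (fun x : Fin d → ZMod 2 => par x = 0 ∧ syn E x = 0) with hT
  have hsum : (bigSet (d := d) E).card + T.card = 2 ^ (d - 1) := by
    rw [← card_par hd 0]
    have h1 := Finset.card_filter_add_card_filter_not
      (s := (univ.filter (fun x : Fin d → ZMod 2 => par x = 0))) (fun x => syn E x = 0)
    rw [filter_filter, filter_filter] at h1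
    rw [← h1, add_comm]
    congr 1
  have hTcard : T.card * 2 ^ m ≤ 2 ^ (d - 1) := by
    rw [← card_par hd 1]
    have hle : (T ×ˢ (univ : Finset (Fin (2 ^ m)))).card ≤
        (univ.filter (fun x : Fin d → ZMod 2 => par x = 1)).card := by
      apply card_le_card_of_injOn (fun p => p.1 + Pi.single (Fin.castLE hmd p.2) 1)
      · rintro ⟨x, i⟩ hx
        simp only [coe_product, Set.mem_prod, mem_coe, hT, mem_filter, mem_univ, true_and,
          and_true] at hx
        simp only [coe_filter, mem_univ, true_and, Set.mem_ofPred_eq]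
        rw [par_add_single, hx.1]
        decide
      · rintro ⟨x, i⟩ hx ⟨y, j⟩ hy hxy
        simp only [coe_product, Set.mem_prod, mem_coe, hT, mem_filter, mem_univ, true_and,
          and_true] at hx hy hxy
        have hs := congrArg (syn E) hxy
        rw [syn_add_single, syn_add_single, hx.2, hy.2, zero_add, zero_add] at hs
        have hl : ∀ i : Fin (2 ^ m), lab (d := d) E (Fin.castLE hmd i) = E.symm i := by
          intro i
          unfold lab
          rw [dif_pos (by simp)]
          rfl
        rw [hl, hl] at hs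
        have hij : i = j := E.symm.injective hs
        subst hij
        have := add_right_cancel hxy
        rw [this]
    rwa [card_product, card_univ, Fintype.card_fin] at hle
  have h2m : 1 ≤ 2 ^ m := Nat.one_le_two_pow
  have : 2 ^ (d - 1) * 2 ^ m = (bigSet (d := d) E).card * 2 ^ m + T.card * 2 ^ m := by
    rw [← add_mul, hsum]
  rw [Nat.mul_sub, mul_one]
  omega

end

theorem bddAbove {V : Type*} [Fintype V] (G : SimpleGraph V) :
    BddAbove {k | ∃ S : Finset V, IsOddIndependent G S ∧ S.card = k} :=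
  ⟨Fintype.card V, by rintro k ⟨S, -, rfl⟩; exact Finset.card_le_univ S⟩

theorem lower_bound {d m : ℕ} (hm : 1 ≤ m) (hd : Even d) (hmd : 2 ^ m ≤ d) :
    2 ^ (d - 1) * (2 ^ m - 1) ≤ oddIndepNum (Q d) * 2 ^ m := by
  have hcard : Fintype.card (Fin m → ZMod 2) = 2 ^ m := by simp [ZMod.card]
  let E : (Fin m → ZMod 2) ≃ Fin (2 ^ m) := Fintype.equivFinOfCardEq hcard
  refine (card_bigSet E hmd).trans (Nat.mul_le_mul_right _ ?_)
  exact le_csSup (bddAbove _) ⟨_, bigSet_oddIndependent E hm hd hmd, rfl⟩

theorem upper_bound {d : ℕ} (hd : 0 < d) : oddIndepNum (Q d) ≤ 2 ^ (d - 1) := by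
  classical
  have hne : {k | ∃ S : Finset (Fin d → ZMod 2), IsOddIndependent (Q d) S ∧ S.card = k}.Nonempty :=
    ⟨0, ∅, ⟨by simp, by simp⟩, rfl⟩
  apply csSup_le hne
  rintro k ⟨S, ⟨hS, -⟩, rfl⟩
  have hinj : Function.Injective (fun x : Fin d → ZMod 2 => x + Pi.single ⟨0, hd⟩ 1) :=
    fun x y hxy => add_right_cancel hxy
  have hdisj : Disjoint S (S.map ⟨_, hinj⟩) := by
    rw [Finset.disjoint_left]
    rintro x hx hx'
    obtain ⟨y, hy, rfl⟩ := Finset.mem_map.1 hx'
    exact hS y hy _ hx (adj_iff.2 ⟨_, rfl⟩)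
  have h1 : (S ∪ S.map ⟨_, hinj⟩).card ≤ Fintype.card (Fin d → ZMod 2) := Finset.card_le_univ _
  rw [card_union_of_disjoint hdisj, card_map] at h1
  have hc : Fintype.card (Fin d → ZMod 2) = 2 ^ d := by simp [ZMod.card]
  have : 2 ^ d = 2 * 2 ^ (d - 1) := by
    rw [← pow_succ']
    congr 1
    omega
  omega

/-- As `d → ∞` through the even integers, `α_od(Q_d) / 2^d → 1/2`. -/
theorem result : Tendsto (fun k : ℕ => (oddIndepNum (Q (2 * k)) : ℝ) / 2 ^ (2 * k)) atTop
    (𝓝 (1 / 2)) := by
  have hup : ∀ᶠ k : ℕ in atTop, (oddIndepNum (Q (2 * k)) : ℝ) / 2 ^ (2 * k) ≤ 1 / 2 := by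
    filter_upwards [eventually_ge_atTop 1] with k hk
    have h := upper_bound (d := 2 * k) (by omega)
    rw [div_le_iff₀ (by positivity)]
    have h2 : ((2 : ℝ) ^ (2 * k)) = 2 * 2 ^ (2 * k - 1) := by
      rw [← pow_succ']
      congr 1
      omega
    rw [h2]
    have h3 : (oddIndepNum (Q (2 * k)) : ℝ) ≤ 2 ^ (2 * k - 1) := by exact_mod_cast h
    linarith
  have hlow : ∀ᶠ k : ℕ in atTop, 1 / 2 - 1 / (k : ℝ) ≤
      (oddIndepNum (Q (2 * k)) : ℝ) / 2 ^ (2 * k) := by
    filter_upwards [eventually_ge_atTop 1] with k hk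
    -- choose m with 2^m ≤ 2k < 2^(m+1)
    set m := Nat.log 2 (2 * k) with hm
    have hm1 : 1 ≤ m := by
      rw [hm]
      exact Nat.log_pos (by norm_num) (by omega)
    have h1 : 2 ^ m ≤ 2 * k := Nat.pow_log_le_self 2 (by omega)
    have h2 : 2 * k < 2 ^ (m + 1) := Nat.lt_pow_succ_log_self (by norm_num) _
    have h := lower_bound hm1 (even_two_mul k) h1
    have h2m : (1 : ℕ) ≤ 2 ^ m := Nat.one_le_two_pow
    have hR : ((2 : ℝ) ^ (2 * k - 1)) * ((2 : ℝ) ^ m - 1) ≤
        (oddIndepNum (Q (2 * k)) : ℝ) * 2 ^ m := by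
      have := (Nat.cast_le (α := ℝ)).2 h
      push_cast [Nat.cast_sub h2m] at this
      exact this
    have hk' : (k : ℝ) < 2 ^ m := by
      have : k < 2 ^ m := by
        rw [pow_succ] at h2
        omega
      exact_mod_cast this
    have hkpos : (0 : ℝ) < k := by exact_mod_cast hk
    have h3 : ((2 : ℝ) ^ (2 * k)) = 2 * 2 ^ (2 * k - 1) := by
      rw [← pow_succ']
      congr 1
      omega
    rw [le_div_iff₀ (by positivity), h3]
    have hA : (0 : ℝ) < 2 ^ (2 * k - 1) := by positivity
    have hM : (0 : ℝ) < 2 ^ m := by positivity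
    have h4 : (2 : ℝ) ^ (2 * k - 1) * (1 - 1 / 2 ^ m) ≤ (oddIndepNum (Q (2 * k)) : ℝ) := by
      have : (2 : ℝ) ^ (2 * k - 1) * (1 - 1 / 2 ^ m) =
          (2 : ℝ) ^ (2 * k - 1) * ((2 : ℝ) ^ m - 1) / 2 ^ m := by
        field_simp
      rw [this, div_le_iff₀ hM]
      exact hR
    refine le_trans ?_ h4
    have h5 : 1 / (2 : ℝ) ^ m ≤ 2 / k := by
      rw [div_le_div_iff₀ hM hkpos]
      linarith
    have : (1 / 2 - 1 / (k : ℝ)) * (2 * 2 ^ (2 * k - 1)) =
        (2 : ℝ) ^ (2 * k - 1) * (1 - 2 / k) := by
      ring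
    rw [this]
    apply mul_le_mul_of_nonneg_left _ hA.le
    linarith
  have hlim : Tendsto (fun k : ℕ => 1 / 2 - 1 / (k : ℝ)) atTop (𝓝 (1 / 2)) := by
    have := (tendsto_const_nhds (x := (1 / 2 : ℝ))).sub tendsto_one_div_atTop_nhds_zero_nat
    simpa using this
  exact tendsto_of_tendsto_of_tendsto_of_le_of_le' hlim tendsto_const_nhds hlow hup

end Pool.Agent.Results.MP_5d7181_co.LimitHalf
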